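import Mathlib
import Pool.Agent.Results.MP_83fe1a_an.CapacityOfRangeDefect

/-!
# Every thin compact set of reals lies in a range defect

The starting file `CapacityOfRangeDefect` gives one open set `V`, one function and one boundary
point for which the range defect does not have logarithmic capacity zero.  Here every nonempty
compact set of real numbers that is thin (a form of lower box dimension zero) is contained in a
range defect of a function that omits the set on all of `V` and whose values on the whole Shilov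
boundary are far from the set.
-/

set_option autoImplicit false
set_option linter.all false

open Complex Metric Filter Topology Set MeasureTheory
open scoped ENNReal BoundedContinuousFunction

namespace Pool.Agent.Results.MP_83fe1a_an.ThinSets

open Pool.Agent.Helper914.Iversen
open Pool.Agent.Results.MP_83fe1a_an.CapacityOfRangeDefect

/-- Thin sets: for all `N`, `M` and `ε > 0` there are `ρ > 0` and a finite `S ⊆ K` with
`#S * ρ ≤ ε` such that every point `w` of `K` has a point `w'` of `S` with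
`|w - w'| * M ≤ ρ ^ N`. -/
def Thin (K : Set ℂ) : Prop :=
  ∀ (N : ℕ) (M ε : ℝ), 0 < ε → ∃ S : Finset ℂ, (S : Set ℂ) ⊆ K ∧ ∃ ρ : ℝ, 0 < ρ ∧
    (∀ w ∈ K, ∃ w' ∈ S, ‖w - w'‖ * M ≤ ρ ^ N) ∧ (S.card : ℝ) * ρ ≤ ε

/-- Bounded open sets all of whose boundary points are essential singularities of functions in
`H^∞(V)`. -/
def IsAdmissible (V : Set ℂ) : Prop :=
  IsOpen V ∧ Bornology.IsBounded V ∧
    ∀ ξ ∈ frontier V, ∃ g : Hinf V, IsEssentialSingularity V g.1 ξ

/-- The function `f` on `V` omits all points of `K`. -/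
def OmitsSet (V : Set ℂ) (f : Hinf V) (K : Set ℂ) : Prop := ∀ z : V, f.1 z ∉ K

/-- For some `r > 0` all points of `K` have absolute value at most `r`, and all characters in the
Shilov boundary of `A` have absolute value at least `4 r` at `f`. -/
def FarOnShilov (A : Type) [NormedCommRing A] [NormedAlgebra ℂ A] (f : A) (K : Set ℂ) : Prop :=
  ∃ r : ℝ, 0 < r ∧ (∀ w ∈ K, ‖w‖ ≤ r) ∧ ∀ φ ∈ shilovBoundary A, 4 * r ≤ ‖φ f‖

/-- `FarOnShilov` for the algebra `H^∞(V)`. -/
def FarFrom (V : Set ℂ) (f : Hinf V) (K : Set ℂ) : Prop := FarOnShilov (Hinf V) f K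

/-- `K` is contained in a range defect of a function in `H^∞(V)`, `V` admissible, that omits `K`
on all of `V` and has values far from `K` on the whole Shilov boundary. -/
def InDefect (K : Set ℂ) : Prop :=
  ∃ V : Set ℂ, IsAdmissible V ∧ ∃ f : Hinf V, OmitsSet V f K ∧ FarFrom V f K ∧
    ∃ ζ ∈ frontier V, K ⊆ rangeDefect V f ζ

/-- The negated form of Q1. -/
def NegativeAnswer : Prop :=
  ∃ V : Set ℂ, IsAdmissible V ∧ ∃ f : Hinf V, ∃ ζ ∈ frontier V,
    ¬ LogCapacityZero (rangeDefect V f ζ)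

theorem defect_of_KP {K : Set ℂ} (hK : KP K) : ∃ V : Set ℂ, IsOpen V ∧ Bornology.IsBounded V ∧
    (∀ ξ ∈ frontier V, ∃ g : Hinf V, IsEssentialSingularity V g.1 ξ) ∧
    ∃ f : Hinf V, (∀ z : V, f.1 z ∉ K) ∧
      (∀ φ ∈ shilovBoundary (Hinf V), 1 / 4 ≤ ‖φ f‖) ∧
      ∃ ζ ∈ frontier V, K ⊆ rangeDefect V f ζ := by
  obtain ⟨S⟩ := exists_sys hK
  have hKs := hK.small
  have hcs : CompleteSpace (Hinf S.V) := (isClosed_Hinf S.isOpen_V).completeSpace_coe
  refine ⟨S.V, S.isOpen_V, isBounded_ball.subset sdiff_subset, ?_, ?_⟩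
  · intro ξ hξ
    obtain ⟨g, h1, h2, h3⟩ := S.ess hK.ne hKs hξ
    refine ⟨mk g h1 3 h2, ?_⟩
    rintro ρ hρ ⟨G, hG, hGg⟩
    exact h3 ρ hρ G hG (fun z hz => by rw [hGg ⟨z, hz⟩]; rfl)
  · -- a cluster point of the poles
    have hb : ∀ k, S.a k ∈ closedBall (0 : ℂ) 1 := by
      intro k
      rw [mem_closedBall_zero_iff]
      linarith [S.a_small k]
    obtain ⟨ζ, -, σ, hσ, hlim⟩ := (isCompact_closedBall (0 : ℂ) 1).tendsto_subseq hb
    have hnV : ζ ∉ S.V := by
      intro h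
      apply h.2
      exact isClosed_closure.mem_of_tendsto hlim (Eventually.of_forall (fun k => S.a_mem_E _))
    -- the data
    let Z : Hinf S.V := mk (fun z => z) differentiableOn_id 2 (fun z hz => by
      have : ‖z‖ < 2 := by simpa using hz.1
      exact this.le)
    let f : Hinf S.V := mk S.F S.differentiableOn_F 3 (fun z hz => S.F_bdd hz)
    have hZ : ∀ z : S.V, (Z : S.V →ᵇ ℂ) z = z := fun _ => rfl
    have hf : ∀ z : S.V, (f : S.V →ᵇ ℂ) z = S.F z := fun _ => rfl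
    have hchar : ∀ w ∈ K, ζ ∈ closure S.V ∧
        ∃ φ : WeakDual.characterSpace ℂ (Hinf S.V), φ Z = ζ ∧ φ f = w :=
      fun w hw => exists_char S hKs hσ hlim hZ hf hw
    have hfr : ζ ∈ frontier S.V := by
      rw [S.isOpen_V.frontier_eq]
      obtain ⟨w, hw⟩ := hK.ne
      exact ⟨(hchar w hw).1, hnV⟩
    refine ⟨f, ?_, shilov_big S hf, ζ, hfr, ?_⟩
    · intro z hz
      have h4 : S.F z ∈ K := by
        have h5 := hf z
        rw [← h5]
        exact hz
      exact S.omits z.2 h4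
    intro w hw
    obtain ⟨-, φ, h1, h2⟩ := hchar w hw
    refine ⟨⟨φ, ⟨Z, hZ, h1⟩, h2⟩, ?_⟩
    rintro (⟨ψ, ⟨h3, -⟩, h4⟩ | ⟨s, -, h3⟩)
    · have h5 := shilov_big S hf ψ h3
      rw [h4] at h5
      have := hKs w hw
      linarith
    · have h4 := h3 0
      rw [hf] at h4
      apply S.omits (s 0).2
      rw [h4]; exact hw

/-- Scaled copies of thin sets of reals. -/
theorem KP_scale {K : Set ℂ} (hc : IsCompact K) (hne : K.Nonempty) (hre : ∀ w ∈ K, w.im = 0)
    (hth : Thin K) {r : ℝ} (hr : 0 < r) (hle : ∀ w ∈ K, ‖w‖ ≤ r) :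
    KP ((fun w : ℂ => (((16 * r)⁻¹ : ℝ) : ℂ) * w) '' K) := by
  have hb : 0 < (16 * r)⁻¹ := by positivity
  refine ⟨hc.image (continuous_const.mul continuous_id), hne.image _, ?_, ?_, ?_⟩
  · rintro _ ⟨w, hw, rfl⟩
    show ‖(((16 * r)⁻¹ : ℝ) : ℂ) * w‖ ≤ 1 / 16
    rw [norm_mul, Complex.norm_real, Real.norm_of_nonneg hb.le]
    calc (16 * r)⁻¹ * ‖w‖ ≤ (16 * r)⁻¹ * r := mul_le_mul_of_nonneg_left (hle w hw) hb.le
      _ = 1 / 16 := by field_simp
  · rintro _ ⟨w, hw, rfl⟩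
    show ((((16 * r)⁻¹ : ℝ) : ℂ) * w).im = 0
    rw [Complex.im_ofReal_mul, hre w hw, mul_zero]
  · intro N M ε hε
    obtain ⟨S, hSK, ρ, hρ, h1, h2⟩ := hth N (M * (16 * r)⁻¹) ε hε
    classical
    refine ⟨S.image (fun w : ℂ => (((16 * r)⁻¹ : ℝ) : ℂ) * w), ?_, ρ, hρ, ?_, ?_⟩
    · rw [Finset.coe_image]
      exact Set.image_mono hSK
    · rintro _ ⟨w, hw, rfl⟩
      obtain ⟨w', hw', h⟩ := h1 w hw
      refine ⟨_, Finset.mem_image_of_mem _ hw', ?_⟩
      show ‖(((16 * r)⁻¹ : ℝ) : ℂ) * w - (((16 * r)⁻¹ : ℝ) : ℂ) * w'‖ * M ≤ ρ ^ N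
      rw [← mul_sub, norm_mul, Complex.norm_real, Real.norm_of_nonneg hb.le]
      refine le_trans (le_of_eq ?_) h
      ring
    · refine le_trans ?_ h2
      exact mul_le_mul_of_nonneg_right (by exact_mod_cast Finset.card_image_le) hρ.le

theorem LogCapacityZero.mono {E K : Set ℂ} (h : LogCapacityZero E) (hKE : K ⊆ E) :
    LogCapacityZero K :=
  fun μ C i hC hCK hμ => h μ C i hC (hCK.trans hKE) hμ

theorem main {K : Set ℂ} (hc : IsCompact K) (hne : K.Nonempty) (hre : ∀ w ∈ K, w.im = 0)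
    (hth : Thin K) : InDefect K := by
  obtain ⟨r, hr, hle⟩ := hc.isBounded.exists_pos_norm_le
  have hb : (16 * r) * (16 * r)⁻¹ = 1 := mul_inv_cancel₀ (by positivity)
  have hbC : (((16 * r : ℝ)) : ℂ) * (((16 * r)⁻¹ : ℝ) : ℂ) = 1 := by
    rw [← Complex.ofReal_mul, hb, Complex.ofReal_one]
  have hbC' : (((16 * r)⁻¹ : ℝ) : ℂ) * ((16 * r : ℝ) : ℂ) = 1 := by
    rw [mul_comm]; exact hbC
  obtain ⟨V, hV, hVb, hess, f, homit, hsh, ζ, hζ, hsub⟩ :=
    defect_of_KP (KP_scale hc hne hre hth hr hle)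
  have hval : ∀ z : V, (((16 * r : ℝ) : ℂ) • f : Hinf V).1 z = ((16 * r : ℝ) : ℂ) * f.1 z :=
    fun z => rfl
  have hphi : ∀ φ : WeakDual.characterSpace ℂ (Hinf V),
      φ (((16 * r : ℝ) : ℂ) • f) = ((16 * r : ℝ) : ℂ) * φ f := by
    intro φ
    rw [map_smul, smul_eq_mul]
  have hcancel : ∀ x w : ℂ, ((16 * r : ℝ) : ℂ) * x = w → x = (((16 * r)⁻¹ : ℝ) : ℂ) * w := by
    intro x w h
    rw [← h, ← mul_assoc, hbC', one_mul]
  refine ⟨V, ⟨hV, hVb, hess⟩, ((16 * r : ℝ) : ℂ) • f, ?_, ⟨r, hr, hle, ?_⟩, ζ, hζ, ?_⟩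
  · intro z hz
    apply homit z
    exact ⟨_, hz, (hcancel _ _ (hval z).symm).symm⟩
  · intro φ hφ
    rw [hphi, norm_mul, Complex.norm_real, Real.norm_of_nonneg (by positivity)]
    have h1 := hsh φ hφ
    nlinarith
  · intro w hw
    obtain ⟨⟨φ, h1, h2⟩, h3⟩ := hsub ⟨w, hw, rfl⟩
    refine ⟨⟨φ, h1, ?_⟩, ?_⟩
    · rw [hphi, h2]
      show ((16 * r : ℝ) : ℂ) * ((((16 * r)⁻¹ : ℝ) : ℂ) * w) = w
      rw [← mul_assoc, hbC, one_mul]
    · rintro (⟨ψ, h4, h5⟩ | ⟨s, h4, h5⟩)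
      · apply h3
        left
        refine ⟨ψ, h4, ?_⟩
        rw [hphi] at h5
        exact hcancel _ _ h5
      · apply h3
        right
        refine ⟨s, h4, fun n => ?_⟩
        have h6 := h5 n
        rw [hval] at h6
        exact hcancel _ _ h6

/-- (1) Every nonempty compact thin set `K` of real numbers is contained in
`f(M_ζ) \ [f(Γ_V ∩ M_ζ) ∪ R(f, ζ)]` for some bounded open set `V` all of whose boundary points are
essential singularities, some `f ∈ H^∞(V)` that omits `K` on all of `V` and for which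
`|f| ≥ 4 r` on the whole Shilov boundary, `r > 0` a bound of the absolute values of the points of
`K`, and some boundary point `ζ`.
(2) Some nonempty compact thin set of real numbers does not have logarithmic capacity zero.
(3) So some set `f(M_ζ) \ [f(Γ_V ∩ M_ζ) ∪ R(f, ζ)]` does not have logarithmic capacity zero. -/
theorem result :
    (∀ K : Set ℂ, IsCompact K → K.Nonempty → (∀ w ∈ K, w.im = 0) → Thin K → InDefect K) ∧
    (∃ K : Set ℂ, IsCompact K ∧ K.Nonempty ∧ (∀ w ∈ K, w.im = 0) ∧ Thin K ∧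
      ¬ LogCapacityZero K) ∧ NegativeAnswer := by
  have hcap : ¬ LogCapacityZero Cantor.K := fun h =>
    Cantor.energy.ne (h Cantor.μ Cantor.K inferInstance Cantor.K_cpt Subset.rfl Cantor.μ_compl)
  refine ⟨fun K hc hne hre hth => main hc hne hre hth,
    ⟨Cantor.K, Cantor.K_kp.cpt, Cantor.K_kp.ne, Cantor.K_kp.real, Cantor.K_kp.thin, hcap⟩, ?_⟩
  obtain ⟨V, hV, f, -, -, ζ, hζ, hsub⟩ :=
    main Cantor.K_kp.cpt Cantor.K_kp.ne Cantor.K_kp.real Cantor.K_kp.thin
  exact ⟨V, hV, f, ζ, hζ, fun h => hcap (LogCapacityZero.mono h hsub)⟩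

end Pool.Agent.Results.MP_83fe1a_an.ThinSets
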